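import Mathlib
import Pool.Agent.H30.Refine

set_option autoImplicit false

namespace Pool.Agent.Results.MP_b12348_gt.NoFactor

open Pool.Agent.H30.Refine

theorem result : ∃ (C : Set ((Fin 3 → ℝ) × ℝ)) (T : Set ((Fin 3 × Bool) ⊕ Option (Fin 3) → ℝ))
    (D : Set ((Fin 3 × Bool) ⊕ Option (Fin 3) → ℝ))
    (f : ((Fin 3 × Bool) ⊕ Option (Fin 3) → ℝ) → (Fin 3 → ℝ) × ℝ)
    (W : Set (T → ℝ)) (g : (T → ℝ) → (C → ℝ)),
    IsPolytope C ∧ (∀ k, ¬ IsSimplex C k) ∧ (C.extremePoints ℝ).ncard = 12 ∧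
      IsSimplex T 9 ∧ Refines C T D f W g ∧
      ∀ (E : Type) [AddCommGroup E] [Module ℝ E] (T0 : Set E), IsSimplex T0 11 →
        ∀ (D' : Set ((Fin 3 × Bool) ⊕ Option (Fin 3) → ℝ))
          (f' : ((Fin 3 × Bool) ⊕ Option (Fin 3) → ℝ) → E)
          (W' : Set (T → ℝ)) (g' : (T → ℝ) → (T0 → ℝ)), ¬ Refines T0 T D' f' W' g' := by
  obtain ⟨W, g, h⟩ := refines (d := 3) (by norm_num)
  refine ⟨_, _, _, _, W, g, ⟨_, Set.finite_range _, rfl⟩, not_simplex (by norm_num),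
    ncard_ext (by norm_num), std_simplex (d := 3), h, ?_⟩
  intro E _ _ T0 h0 D' f' W' g' hr
  exact no_pao (by rw [card_I]; norm_num) h0 D' f' hr.1

end Pool.Agent.Results.MP_b12348_gt.NoFactor
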